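import Pool.Agent.H865_shift.Metab

/-!
# The generalised argument shift conjecture for metabelian Lie algebras

For every finite-dimensional metabelian Lie algebra `L` over a field of characteristic zero
(that is, the derived algebra `[L, L]` is abelian) and for every `a ∈ L*`, regular or not, there
is a complete family of polynomials on `L*` in bi-involution with respect to the Lie-Poisson
bracket and the constant bracket attached to `a`.

The definitions `val`, `grad`, `stab`, `index` and `HasCompleteFamily` are in
`Pool.Agent.H865_shift.Defs`.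
-/

open Module

namespace Pool.Agent.Results.MP_d920b6_mp.Metabelian

open Pool.Agent.H865_shift

/-- Every metabelian Lie algebra `L` over a field of characteristic zero admits, for every
`a ∈ L*`, a complete family of polynomials in bi-involution. -/
theorem result (K : Type*) [Field K] [CharZero K] (L : Type*) [LieRing L] [LieAlgebra K L]
    [FiniteDimensional K L] (hL : ∀ x y z w : L, ⁅⁅x, y⁆, ⁅z, w⁆⁆ = 0) (a : Dual K L) :
    HasCompleteFamily a := by
  classical
  -- the derived algebra
  let W : Submodule K L := Submodule.span K (Set.range fun p : L × L => ⁅p.1, p.2⁆)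
  have hW : ∀ x y : L, ⁅x, y⁆ ∈ W := fun x y => Submodule.subset_span ⟨(x, y), rfl⟩
  have hWW : ∀ x ∈ W, ∀ y ∈ W, ⁅x, y⁆ = 0 := by
    intro x hx y hy
    induction hx, hy using Submodule.span_induction₂ with
    | mem_mem x y hx hy =>
      obtain ⟨p, rfl⟩ := hx
      obtain ⟨q, rfl⟩ := hy
      exact hL _ _ _ _
    | zero_left y hy => exact zero_lie _
    | zero_right x hx => exact lie_zero _
    | add_left x y z _ _ _ h1 h2 => rw [add_lie, h1, h2, add_zero]
    | add_right x y z _ _ _ h1 h2 => rw [lie_add, h1, h2, add_zero]
    | smul_left r x y _ _ h => rw [smul_lie, h, smul_zero]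
    | smul_right r x y _ _ h => rw [lie_smul, h, smul_zero]
  obtain ⟨U, hU⟩ := Submodule.exists_isCompl W
  let bW := Module.finBasis K W
  let bU := Module.finBasis K U
  let b : Basis (Fin (finrank K W) ⊕ Fin (finrank K U)) K L :=
    (bW.prod bU).map (Submodule.prodEquivOfIsCompl W U hU)
  have hbl : ∀ j, b (Sum.inl j) = (bW j : L) := by
    intro j
    simp [b]
  refine metabelian_of_basis b W hW hWW ?_ ?_ a
  · intro j
    rw [hbl]
    exact (bW j).2
  · intro w hw
    have h1 : ∀ l, b.repr w (Sum.inl l) = bW.repr (⟨w, hw⟩ : W) l := by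
      intro l
      have h2 : (Submodule.prodEquivOfIsCompl W U hU).symm w = ((⟨w, hw⟩ : W), (0 : U)) :=
        Submodule.prodEquivOfIsCompl_symm_apply_left W U hU (⟨w, hw⟩ : W)
      simp only [b, Basis.map_repr, LinearEquiv.trans_apply, h2]
      simp
    have h3 := congrArg (fun z : W => (z : L)) (bW.sum_repr (⟨w, hw⟩ : W))
    simp only [AddSubmonoidClass.coe_finsetSum, Submodule.coe_smul] at h3
    conv_lhs => rw [← h3]
    exact Finset.sum_congr rfl fun l _ => by rw [h1, hbl]

end Pool.Agent.Results.MP_d920b6_mp.Metabelian
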