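import Pool.Agent.H865_nil.Main

/-!
# The generalised argument shift conjecture for nilpotent Lie algebras

Let `L` be a finite-dimensional Lie algebra over a field of characteristic zero which is
nilpotent, or more generally has a nilpotent subalgebra `H` with
`dim H + ind H = dim L + ind L` (for nilpotent `L` take `H = L`). Then for every `a ∈ L*`, regular
or not, there is a complete family of polynomials on `L*` in bi-involution with respect to the
Lie-Poisson bracket and the constant bracket attached to `a`.

The definitions `val`, `grad`, `stab`, `index` and `HasCompleteFamily` are in
`Pool.Agent.H865_shift.Defs`.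
-/

open Module

namespace Pool.Agent.Results.MP_d920b6_mp.Nilpotent

open Pool.Agent.H865_shift

/-- If `L` has a nilpotent subalgebra `H` with `dim H + ind H = dim L + ind L` (in particular,
if `L` is nilpotent), then every `a ∈ L*` admits a complete family of polynomials in
bi-involution. -/
theorem result (K : Type*) [Field K] [CharZero K] (L : Type*) [LieRing L] [LieAlgebra K L]
    [FiniteDimensional K L] (H : LieSubalgebra K L) (hH : LieRing.IsNilpotent H)
    (hdim : finrank K H + index K H = finrank K L + index K L) (a : Dual K L) :
    HasCompleteFamily a :=
  HasCompleteFamily.of_subalgebra H hdim (Pool.Agent.H865_nil.nilpotent _)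

end Pool.Agent.Results.MP_d920b6_mp.Nilpotent
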